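import Pool.Agent.helper45.TC.Spec

/-!
# Row YV1 of project TC: the entries of `yv` at the states `D3`
-/

set_option autoImplicit false

open Polynomial Finset Pool.Agent.helper27.PC

namespace Pool.Agent.TC

/-- sign of a component -/
def YV1_sg (c : Bool) : ℤ := if c then 1 else -1

theorem YV1_sg_cases (c : Bool) : YV1_sg c = 1 ∨ YV1_sg c = -1 := by
  cases c
  · exact Or.inr rfl
  · exact Or.inl rfl

theorem YV1_w0 (s a b : ℕ) (c : Bool) (i : ℕ) :
    wT true (s + a + b) 0 s (c, a + b + i) = C (YV1_sg c) * X ^ (i + ix c) := by
  unfold wT wq YV1_sg ix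
  rw [if_pos rfl]
  have e1 : 0 + s + (a + b + i) + 1 - (s + a + b) = i + 1 := by omega
  have e2 : 0 + s + (a + b + i) - (s + a + b) = i := by omega
  cases c
  · simp only [Bool.false_eq_true, if_false, add_zero, e2]
    simp
  · simp only [if_true, e1]
    simp

theorem YV1_w1 (s a b : ℕ) (c : Bool) (i : ℕ) :
    wT true (s + a + b) s a (c, b + i) = C (YV1_sg c) * X ^ (i + ix c) := by
  unfold wT wq YV1_sg ix
  rw [if_pos rfl]
  have e1 : s + a + (b + i) + 1 - (s + a + b) = i + 1 := by omega
  have e2 : s + a + (b + i) - (s + a + b) = i := by omega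
  cases c
  · simp only [Bool.false_eq_true, if_false, add_zero, e2]
    simp
  · simp only [if_true, e1]
    simp

/-- signs -/
theorem YV1_pow (k : ℕ) : ((-1 : ℤ[X]) ^ k = C 1) ∨ ((-1 : ℤ[X]) ^ k = C (-1)) := by
  rcases neg_one_pow_eq_or ℤ[X] k with h | h
  · left
    rw [h, C_1]
  · right
    rw [h, C_neg, C_1]

/-- the product of a sign, of a monomial and of a monomial -/
theorem YV1_mul (k : ℕ) (σ ε : ℤ) (hσ : σ = 1 ∨ σ = -1) (hε : ε = 1 ∨ ε = -1) (e f g : ℕ) (h : g = e + f) :
    ∃ δ : ℤ, (δ = 1 ∨ δ = -1) ∧ (-1 : ℤ[X]) ^ k * (C σ * X ^ e) * (C ε * X ^ f) = C δ * X ^ g := by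
  subst h
  have key : ∀ τ : ℤ, (-1 : ℤ[X]) ^ k = C τ →
      (-1 : ℤ[X]) ^ k * (C σ * X ^ e) * (C ε * X ^ f) = C (τ * σ * ε) * X ^ (e + f) := by
    intro τ hτ
    rw [hτ, C_mul, C_mul, pow_add]
    ring
  rcases YV1_pow k with hk | hk
  · refine ⟨1 * σ * ε, ?_, key 1 hk⟩
    rcases hσ with rfl | rfl <;> rcases hε with rfl | rfl <;> norm_num
  · refine ⟨-1 * σ * ε, ?_, key (-1) hk⟩
    rcases hσ with rfl | rfl <;> rcases hε with rfl | rfl <;> norm_num

/-- the first ribbon -/
theorem YV1_first (hRIV : RIV_stmt) (s a b : ℕ) (hs : 1 ≤ s) (c : Bool) (i : ℕ) (hi : i < s) :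
    ∃ ε : ℤ, (ε = 1 ∨ ε = -1) ∧
      Rib (wT true (s + a + b) 0 s) s (Finsupp.single (vac (s + a + b)) 1) (move s (vac (s + a + b)) (c, a + b + i)) =
        C ε * X ^ (i + ix c) := by
  rw [hRIV _ _ _ _ hs]
  have hup : up s ((c, a + b + i) : Lab) = (c, a + b + i + s) := rfl
  have hmem : ∀ x : Lab, x ∈ move s (vac (s + a + b)) (c, a + b + i) ↔
      x = (c, a + b + i + s) ∨ (x ≠ (c, a + b + i) ∧ x.2 < s + a + b) := by
    intro x
    rw [mem_mv, hup, mem_vac']
  have hdn : dn s ((c, a + b + i + s) : Lab) = (c, a + b + i) := by
    unfold dn
    simp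
  rw [sum_eq_single ((c, a + b + i + s) : Lab)]
  · rw [hdn, YV1_w0]
    have hE : insert ((c, a + b + i) : Lab) ((move s (vac (s + a + b)) (c, a + b + i)).erase (c, a + b + i + s)) =
        vac (s + a + b) := by
      ext x
      rw [mem_insert, mem_erase, hmem, mem_vac']
      constructor
      · rintro (rfl | ⟨h1, h2 | h2⟩)
        · simp only
          omega
        · exact absurd h2 h1
        · exact h2.2
      · intro h
        by_cases h0 : x = (c, a + b + i)
        · exact Or.inl h0
        · refine Or.inr ⟨?_, Or.inr ⟨h0, h⟩⟩
          rintro rfl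
          simp only at h
          omega
    rw [hE, Finsupp.single_eq_same]
    obtain ⟨δ, hδ, h⟩ := YV1_mul (cnt (move s (vac (s + a + b)) (c, a + b + i)) (c, a + b + i) s) (YV1_sg c) 1 (YV1_sg_cases c)
      (Or.inl rfl) (i + ix c) 0 (i + ix c) rfl
    refine ⟨δ, hδ, ?_⟩
    rw [← h, C_1, pow_zero, mul_one, mul_one, mul_one]
  · intro m hm hne
    rw [mem_filter, hmem] at hm
    have hz : insert (dn s m) ((move s (vac (s + a + b)) (c, a + b + i)).erase m) ≠ vac (s + a + b) := by
      intro h
      have h1 : ((c, a + b + i + s) : Lab) ∈ vac (s + a + b) := by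
        rw [← h, mem_insert, mem_erase, hmem]
        exact Or.inr ⟨fun h => hne h.symm, Or.inl rfl⟩
      rw [mem_vac'] at h1
      simp only at h1
      omega
    rw [Finsupp.single_eq_of_ne hz, mul_zero]
  · intro h
    exfalso
    apply h
    rw [mem_filter, hmem, hmem, hdn]
    refine ⟨Or.inl rfl, ?_, ?_⟩
    · simp only
      omega
    · rintro (h1 | ⟨h1, -⟩)
      · have := congrArg Prod.snd h1
        simp only at this
        omega
      · exact h1 rfl

theorem YV1 (hRIV : RIV_stmt) : YV1_stmt := by
  intro s a b hs hsa hsb c i hi
  have hmem := fun (g : ℕ) (x : Lab) => mem_D3 (s := s) (a := a) (b := b) (c := c) (g := g) (x := x)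
  constructor
  · obtain ⟨ε, hε, hv⟩ := YV1_first hRIV s a b hs c i hi
    rw [yv_eq, hRIV _ _ _ _ (le_trans hs hsa)]
    have hdn : dn a ((c, a + b + i + (a + s)) : Lab) = (c, b + (a + i + s)) := by
      unfold dn
      simp only
      congr 1
      omega
    have hF : (D3 s a b c (a + b + i)).filter (fun m => a ≤ m.2 ∧ dn a m ∉ D3 s a b c (a + b + i)) =
        {((c, a + b + i + (a + s)) : Lab)} := by
      ext m
      rw [mem_filter, mem_singleton]
      constructor
      · rintro ⟨h1, h2, h3⟩
        rw [hmem] at h1
        rcases h1 with h1 | ⟨h1, h4⟩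
        · exact h1
        · exfalso
          apply h3
          rw [hmem]
          right
          refine ⟨?_, ?_⟩
          · intro h5
            have := congrArg Prod.snd h5
            unfold dn at this
            simp only at this
            omega
          · unfold dn
            simp only
            omega
      · rintro rfl
        refine ⟨?_, ?_, ?_⟩
        · rw [hmem]
          exact Or.inl rfl
        · simp only
          omega
        · rw [hdn, hmem]
          rintro (h1 | ⟨h1, h2⟩)
          · have := congrArg Prod.snd h1
            simp only at this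
            omega
          · simp only at h2
            omega
    rw [hF, sum_singleton, hdn, YV1_w1]
    have hE : insert ((c, b + (a + i + s)) : Lab) ((D3 s a b c (a + b + i)).erase (c, a + b + i + (a + s))) =
        move s (vac (s + a + b)) (c, a + b + i) := by
      have hup : up s ((c, a + b + i) : Lab) = (c, b + (a + i + s)) := by
        unfold up
        simp only
        congr 1
        omega
      ext x
      rw [mem_insert, mem_erase, hmem, mem_mv, hup, mem_vac']
      constructor
      · rintro (h1 | ⟨h1, h2 | h2⟩)
        · exact Or.inl h1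
        · exact absurd h2 h1
        · exact Or.inr h2
      · rintro (h1 | h1)
        · exact Or.inl h1
        · refine Or.inr ⟨?_, Or.inr h1⟩
          rintro rfl
          have := h1.2
          simp only at this
          omega
    rw [hE, hv]
    exact YV1_mul _ _ _ (YV1_sg_cases c) hε _ _ _ (by ring)
  · obtain ⟨ε, hε, hv⟩ := YV1_first hRIV s a b hs c i hi
    rw [yv_eq, hRIV _ _ _ _ (le_trans hs hsa)]
    have hdn : dn a ((c, b + i + a) : Lab) = (c, b + i) := by
      unfold dn
      simp only
      congr 1
      omega
    have hF : (D3 s a b c (b + i)).filter (fun m => a ≤ m.2 ∧ dn a m ∉ D3 s a b c (b + i)) =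
        {((c, b + i + a) : Lab)} := by
      ext m
      rw [mem_filter, mem_singleton]
      constructor
      · rintro ⟨h1, h2, h3⟩
        rw [hmem] at h1
        rcases h1 with h1 | ⟨h1, h4⟩
        · exfalso
          apply h3
          rw [h1, hmem]
          right
          refine ⟨?_, ?_⟩
          · intro h5
            have := congrArg Prod.snd h5
            unfold dn at this
            simp only at this
            omega
          · unfold dn
            simp only
            omega
        · by_contra hne
          apply h3
          rw [hmem]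
          right
          refine ⟨?_, ?_⟩
          · intro h5
            apply hne
            have e1 := congrArg Prod.fst h5
            have e2 := congrArg Prod.snd h5
            unfold dn at e1 e2
            simp only at e1 e2
            refine Prod.ext e1 ?_
            simp only
            omega
          · unfold dn
            simp only
            omega
      · rintro rfl
        refine ⟨?_, ?_, ?_⟩
        · rw [hmem]
          right
          refine ⟨?_, ?_⟩
          · intro h5
            have := congrArg Prod.snd h5
            simp only at this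
            omega
          · simp only
            omega
        · simp only
          omega
        · rw [hdn, hmem]
          rintro (h1 | ⟨h1, h2⟩)
          · have := congrArg Prod.snd h1
            simp only at this
            omega
          · exact h1 rfl
    rw [hF, sum_singleton, hdn, YV1_w1]
    have hE : insert ((c, b + i) : Lab) ((D3 s a b c (b + i)).erase (c, b + i + a)) =
        move s (vac (s + a + b)) (c, a + b + i) := by
      have e0 : ((c, b + i + a) : Lab) = (c, a + b + i) := by
        congr 1
        omega
      have hup : up s ((c, a + b + i) : Lab) = (c, b + i + (a + s)) := by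
        unfold up
        simp only
        congr 1
        omega
      rw [e0]
      ext x
      rw [mem_insert, mem_erase, hmem, mem_mv, hup, mem_vac']
      constructor
      · rintro (h1 | ⟨h1, h2 | h2⟩)
        · right
          rw [h1]
          refine ⟨?_, ?_⟩
          · intro h5
            have := congrArg Prod.snd h5
            simp only at this
            omega
          · simp only
            omega
        · exact Or.inl h2
        · exact Or.inr ⟨h1, h2.2⟩
      · rintro (h1 | h1)
        · refine Or.inr ⟨?_, Or.inl h1⟩
          rw [h1]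
          intro h5
          have := congrArg Prod.snd h5
          simp only at this
          omega
        · by_cases h2 : x = (c, b + i)
          · exact Or.inl h2
          · exact Or.inr ⟨h1.1, Or.inr ⟨h2, h1.2⟩⟩
    rw [hE, hv]
    exact YV1_mul _ _ _ (YV1_sg_cases c) hε _ _ _ (by ring)

end Pool.Agent.TC
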